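import Pool.Agent.R82.HG.Ops

/-!
Density of exponentials, group law, holomorphy and hypercyclicity.
-/

namespace Pool.Agent.R82.HG

open Filter Topology TopologicalSpace

noncomputable section

/-- The identity theorem for everywhere convergent power series. -/
lemma coeff_zero_of_vanish (c : ℕ → ℂ) (g : ℂ → ℂ)
    (hs : ∀ r : ℝ, 0 ≤ r → Summable fun k => ‖c k‖ * r ^ k)
    (hg : ∀ l, HasSum (fun k => c k * l ^ k) (g l)) (Ω : Set ℂ) (hΩ : IsOpen Ω)
    (hne : Ω.Nonempty) (h0 : ∀ l ∈ Ω, g l = 0) (k : ℕ) : c k = 0 := by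
  let p : FormalMultilinearSeries ℂ ℂ ℂ := FormalMultilinearSeries.ofScalars ℂ c
  have hrad : p.radius = ⊤ := by
    apply FormalMultilinearSeries.radius_eq_top_of_summable_norm
    intro r
    refine (hs r r.2).congr fun n => ?_
    rw [FormalMultilinearSeries.ofScalars_norm]
  have hball : HasFPowerSeriesOnBall g p 0 ⊤ := by
    refine ⟨by rw [hrad], by simp, fun {y} _ => ?_⟩
    rw [zero_add]
    refine (hg y).congr_fun ?_
    intro n
    simp [p, FormalMultilinearSeries.ofScalars]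
  have han : AnalyticOnNhd ℂ g Set.univ := by
    have h1 := hball.analyticOnNhd
    intro z _
    exact h1 z (by simp)
  obtain ⟨l0, hl0⟩ := hne
  have h1 : Set.EqOn g 0 Set.univ :=
    han.eqOn_zero_of_preconnected_of_eventuallyEq_zero isPreconnected_univ (Set.mem_univ l0)
      (by filter_upwards [hΩ.mem_nhds hl0] with l hl using h0 l hl)
  have h2 : g = 0 := funext fun l => h1 (Set.mem_univ l)
  rw [h2] at hball
  have h3 := hball.hasFPowerSeriesAt.eq_zero
  have h4 := congrArg (fun q : FormalMultilinearSeries ℂ ℂ ℂ => q.coeff k) h3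
  have h5 : FormalMultilinearSeries.coeff (0 : FormalMultilinearSeries ℂ ℂ ℂ) k = 0 := rfl
  simp only [p, FormalMultilinearSeries.coeff_ofScalars, h5] at h4
  exact h4

/-- The projection to the `m`-th coordinate. -/
def ev (m : ℕ) : X →ₗ[ℂ] L1 := (LinearMap.proj m).comp X.subtype

lemma ev_apply (m : ℕ) (y : X) : ev m y = y.1 m := rfl

lemma dense_L1 (m : ℕ) (Ω : Set ℂ) (hΩ : IsOpen Ω) (hne : Ω.Nonempty) :
    (Submodule.span ℂ ((fun l => (ex l).1 m) '' Ω)).topologicalClosure = ⊤ := by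
  by_contra hcon
  set M := (Submodule.span ℂ ((fun l => (ex l).1 m) '' Ω)).topologicalClosure with hM
  have hx : ∃ x, x ∉ M := by
    by_contra h
    push Not at h
    exact hcon (eq_top_iff.2 fun x _ => h x)
  obtain ⟨x, hx⟩ := hx
  have hMc : IsClosed (M : Set L1) := Submodule.isClosed_topologicalClosure _
  have hMc' : IsClosed (M : Set L1) := hMc
  have hx' : (M.mkQ x : L1 ⧸ M) ≠ 0 := by
    rw [Submodule.mkQ_apply, Ne, Submodule.Quotient.mk_eq_zero]
    exact hx
  obtain ⟨ψ0, hψ0⟩ := SeparatingDual.exists_ne_zero (R := ℂ) hx'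
  let q : L1 →L[ℂ] (L1 ⧸ M) := ⟨M.mkQ, by exact continuous_quot_mk⟩
  let ψ : L1 →L[ℂ] ℂ := ψ0.comp q
  have hψM : ∀ y ∈ M, ψ y = 0 := by
    intro y hy
    change ψ0 (M.mkQ y) = 0
    rw [Submodule.mkQ_apply, (Submodule.Quotient.mk_eq_zero M).2 hy, map_zero]
  -- the coefficients
  have hsum : ∀ f : L1, HasSum (fun k => f k * ψ (lp.single 1 k 1)) (ψ f) := by
    intro f
    have h1 := (lp.hasSum_single (by simp) f).mapL ψ
    refine h1.congr_fun fun k => ?_
    have h2 : lp.single (E := fun _ : ℕ => ℂ) 1 k (f k) = (f k) • lp.single 1 k 1 := by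
      rw [← lp.single_smul]
      simp
    rw [h2, map_smul, smul_eq_mul]
  have hc0 : ∀ k, ((m : ℂ) + 1) ^ k / wt k * ψ (lp.single 1 k 1) = 0 := by
    intro k
    refine coeff_zero_of_vanish (fun k => ((m : ℂ) + 1) ^ k / wt k * ψ (lp.single 1 k 1))
      (fun l => ψ ((ex l).1 m)) ?_ ?_ Ω hΩ hne ?_ k
    · intro r hr
      have h1 := (ex_summable (r : ℂ) m).mul_right ‖ψ‖
      refine Summable.of_nonneg_of_le (fun k => by positivity) (fun k => ?_) h1
      have h2 : ‖ψ (lp.single 1 k 1)‖ ≤ ‖ψ‖ := by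
        have h3 := ψ.le_opNorm (lp.single 1 k 1)
        rw [lp.norm_single (by simp)] at h3
        simpa using h3
      have h3 : ‖((m : ℂ) + 1) ^ k / wt k‖ = ((m : ℝ) + 1) ^ k / wt k := by
        rw [norm_div, norm_pow, Complex.norm_real, Real.norm_of_nonneg (wt_pos k).le]
        have : ‖(m : ℂ) + 1‖ = (m : ℝ) + 1 := by
          have : (m : ℂ) + 1 = ((m + 1 : ℕ) : ℂ) := by push_cast; ring
          rw [this, Complex.norm_natCast]
          push_cast
          ring
        rw [this]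
      have h4 : ‖(r : ℂ) ^ k‖ = r ^ k := by
        rw [norm_pow, Complex.norm_real, Real.norm_of_nonneg hr]
      have hw := wt_pos k
      rw [norm_mul, h3, h4]
      calc ((m : ℝ) + 1) ^ k / wt k * ‖ψ (lp.single 1 k 1)‖ * r ^ k
          ≤ ((m : ℝ) + 1) ^ k / wt k * ‖ψ‖ * r ^ k := by gcongr
        _ = _ := by ring
    · intro l
      refine (hsum ((ex l).1 m)).congr_fun fun k => ?_
      rw [coord_eq, co_ex]
      ring
    · intro l hl
      apply hψM
      apply Submodule.le_topologicalClosure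
      exact Submodule.subset_span ⟨l, hl, rfl⟩
  have hc1 : ∀ k, ψ (lp.single 1 k 1) = 0 := by
    intro k
    have h1 := hc0 k
    have h2 : ((m : ℂ) + 1) ^ k / wt k ≠ 0 := by
      apply div_ne_zero _ (wt_ne k)
      apply pow_ne_zero
      exact_mod_cast Nat.succ_ne_zero m
    exact (mul_eq_zero.1 h1).resolve_left h2
  apply hψ0
  change ψ x = 0
  have h1 := hsum x
  simp only [hc1, mul_zero] at h1
  exact h1.unique hasSum_zero

lemma dense_span (Ω : Set ℂ) (hΩ : IsOpen Ω) (hne : Ω.Nonempty) :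
    Dense (Submodule.span ℂ (ex '' Ω) : Set X) := by
  intro y
  rw [mem_closure_iff_nhds]
  intro U hU
  obtain ⟨m, ε, hε, hball⟩ := exists_ball hU
  have h1 : y.1 m ∈ (Submodule.span ℂ ((fun l => (ex l).1 m) '' Ω)).topologicalClosure := by
    rw [dense_L1 m Ω hΩ hne]
    trivial
  rw [← SetLike.mem_coe, Submodule.topologicalClosure_coe, Metric.mem_closure_iff] at h1
  obtain ⟨s, hs, hsy⟩ := h1 ε hε
  have h2 : Submodule.span ℂ ((fun l => (ex l).1 m) '' Ω) =
      (Submodule.span ℂ (ex '' Ω)).map (ev m) := by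
    rw [Submodule.map_span, ← Set.image_comp]
    rfl
  rw [SetLike.mem_coe, h2, Submodule.mem_map] at hs
  obtain ⟨t, ht, rfl⟩ := hs
  refine ⟨t, hball t ?_, ht⟩
  rw [dist_comm, dist_eq_norm] at hsy
  exact hsy

/-- The group law. -/
lemma T_add (z w : ℂ) (y : X) : T (z + w) y = T z (T w y) := by
  have h1 : T (z + w) = (T z).comp (T w) := by
    apply ContinuousLinearMap.ext_on (dense_span Set.univ isOpen_univ Set.univ_nonempty)
    rintro _ ⟨l, _, rfl⟩
    rw [ContinuousLinearMap.comp_apply, T_ex, T_ex, map_smul, T_ex, smul_smul, ← Complex.exp_add]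
    congr 2
    ring
  rw [h1]
  rfl

lemma tail_bound {E : Type*} [NormedAddCommGroup E] [NormedSpace ℂ E] [CompleteSpace E]
    (a : ℕ → ℂ) (c : ℕ → ℝ) (v : ℕ → E) (h : ℂ) (h0 : h ≠ 0) (ha0 : a 0 = 1) (ha1 : a 1 = h)
    (hac : ∀ j, ‖a j‖ ≤ c j) (hac2 : ∀ j, ‖a (j + 2)‖ ≤ ‖h‖ ^ 2 * c (j + 2))
    (hcs : Summable fun j => c j * ‖v j‖) :
    ‖h⁻¹ • ((∑' j, a j • v j) - v 0) - v 1‖ ≤ ‖h‖ * ∑' j, c (j + 2) * ‖v (j + 2)‖ := by
  have hsn : Summable fun j => ‖a j • v j‖ := by
    refine Summable.of_nonneg_of_le (fun _ => norm_nonneg _) (fun j => ?_) hcs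
    rw [norm_smul]
    exact mul_le_mul_of_nonneg_right (hac j) (norm_nonneg _)
  have hs := hsn.of_norm
  have hsplit := hs.sum_add_tsum_nat_add 2
  rw [Finset.sum_range_succ, Finset.sum_range_one, ha0, ha1, one_smul] at hsplit
  have e1 : h⁻¹ • ((∑' j, a j • v j) - v 0) - v 1 = h⁻¹ • ∑' j, a (j + 2) • v (j + 2) := by
    rw [← hsplit, add_assoc, add_sub_cancel_left, smul_add, smul_smul, inv_mul_cancel₀ h0,
      one_smul, add_sub_cancel_left]
  have hs2 : Summable fun j => ‖a (j + 2) • v (j + 2)‖ :=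
    (summable_nat_add_iff (f := fun j => ‖a j • v j‖) 2).2 hsn
  have hs3 : Summable fun j => c (j + 2) * ‖v (j + 2)‖ :=
    (summable_nat_add_iff (f := fun j => c j * ‖v j‖) 2).2 hcs
  have h2 : ‖∑' j, a (j + 2) • v (j + 2)‖ ≤ ‖h‖ ^ 2 * ∑' j, c (j + 2) * ‖v (j + 2)‖ := by
    rw [← tsum_mul_left]
    refine (norm_tsum_le_tsum_norm hs2).trans ?_
    refine hs2.tsum_le_tsum (fun j => ?_) (hs3.mul_left _)
    rw [norm_smul, ← mul_assoc]
    exact mul_le_mul_of_nonneg_right (hac2 j) (norm_nonneg _)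
  rw [e1, norm_smul, norm_inv]
  have h3 : 0 < ‖h‖ := norm_pos_iff.2 h0
  refine (mul_le_mul_of_nonneg_left h2 (inv_nonneg.2 h3.le)).trans (le_of_eq ?_)
  rw [← mul_assoc, pow_two, ← mul_assoc, inv_mul_cancel₀ h3.ne', one_mul]

/-- Differentiability at the origin. -/
lemma T_deriv_zero (y : X) :
    Tendsto (fun h : ℂ => h⁻¹ • (T h y - y)) (𝓝[≠] 0) (𝓝 (Sh 1 y)) := by
  rw [tendsto_iff]
  intro m
  obtain ⟨c, hc⟩ : ∃ c : ℕ → ℝ, ∀ j, c j = 1 / (j.factorial : ℝ) := ⟨_, fun _ => rfl⟩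
  obtain ⟨M, hM⟩ : ∃ M : ℝ, M = ∑' j : ℕ, c (j + 2) * ‖(Sh (j + 2) y).1 m‖ := ⟨_, rfl⟩
  have hcs : Summable fun j => c j * ‖(Sh j y).1 m‖ := by
    refine (summable_norm_term 1 y m).congr fun j => ?_
    rw [norm_smul, norm_div, one_pow, norm_one, Complex.norm_natCast, hc]
  have hbound : ∀ h : ℂ, h ≠ 0 → ‖h‖ ≤ 1 → ‖(h⁻¹ • (T h y - y) - Sh 1 y).1 m‖ ≤ ‖h‖ * M := by
    intro h h0 h1
    have hn : ∀ j : ℕ, ‖h ^ j / (j.factorial : ℂ)‖ = ‖h‖ ^ j * c j := by
      intro j
      rw [norm_div, norm_pow, Complex.norm_natCast, hc]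
      ring
    have hc0 : ∀ j, 0 ≤ c j := fun j => by rw [hc]; positivity
    have e2 := tail_bound (fun j : ℕ => h ^ j / (j.factorial : ℂ)) c (fun j => (Sh j y).1 m) h h0
      (by simp) (by simp)
      (fun j => by
        rw [hn]
        exact mul_le_of_le_one_left (hc0 j) (pow_le_one₀ (norm_nonneg _) h1))
      (fun j => by
        rw [hn, pow_add, mul_assoc]
        exact mul_le_of_le_one_left (mul_nonneg (by positivity) (hc0 _))
          (pow_le_one₀ (norm_nonneg _) h1)) hcs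
    rw [hM]
    refine le_trans (le_of_eq ?_) e2
    congr 1
    simp only [Sh_zero]
    rfl
  have h1 : Tendsto (fun h : ℂ => ‖h‖ * M) (𝓝[≠] 0) (𝓝 0) := by
    have h2 : Continuous fun h : ℂ => ‖h‖ * M := by fun_prop
    have h3 := h2.tendsto 0
    rw [norm_zero, zero_mul] at h3
    exact h3.mono_left nhdsWithin_le_nhds
  refine squeeze_zero' (Eventually.of_forall fun _ => norm_nonneg _) ?_ h1
  have h2 : ∀ᶠ h : ℂ in 𝓝[≠] 0, ‖h‖ ≤ 1 := by
    apply eventually_nhdsWithin_of_eventually_nhds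
    have : Metric.closedBall (0 : ℂ) 1 ∈ 𝓝 (0 : ℂ) := Metric.closedBall_mem_nhds _ one_pos
    filter_upwards [this] with h hh
    simpa using hh
  filter_upwards [h2, self_mem_nhdsWithin] with h h3 h4
  exact hbound h h4 h3

lemma T_deriv (z : ℂ) (y : X) :
    Tendsto (fun h : ℂ => h⁻¹ • (T (z + h) y - T z y)) (𝓝[≠] 0) (𝓝 (T z (Sh 1 y))) := by
  have h1 := ((T z).continuous.tendsto (Sh 1 y)).comp (T_deriv_zero y)
  refine h1.congr fun h => ?_
  simp only [Function.comp_apply]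
  rw [map_smul, map_sub, ← T_add]

/-! ### Hypercyclicity -/

instance : SeparableSpace L1 := by
  rw [← isSeparable_univ_iff]
  have h1 : (Set.range fun k : ℕ => (lp.single 1 k (1 : ℂ) : L1)).Countable :=
    Set.countable_range _
  have h2 := (h1.isSeparable.span (R := ℂ)).closure
  apply h2.mono
  intro f _
  have h3 := lp.hasSum_single (by simp) f
  apply mem_closure_of_tendsto h3
  refine Eventually.of_forall fun s => ?_
  rw [SetLike.mem_coe]
  apply Submodule.sum_mem
  intro k _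
  have h4 : lp.single (E := fun _ : ℕ => ℂ) 1 k (f k) = (f k) • lp.single 1 k 1 := by
    rw [← lp.single_smul]
    simp
  rw [h4]
  exact Submodule.smul_mem _ _ (Submodule.subset_span ⟨k, rfl⟩)

instance : SecondCountableTopology L1 := UniformSpace.secondCountable_of_separable _

instance : SecondCountableTopology X :=
  inferInstanceAs (SecondCountableTopology ((X : Set (ℕ → L1)) : Type))

instance : IsCountablyGenerated (uniformity X) := by
  rw [uniformity_subtype]
  infer_instance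

instance : BaireSpace X := inferInstance

end

end Pool.Agent.R82.HG
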