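import Pool.Agent.R82.HG.Hyp

/-!
The entire function of a vector; growth; counting of zeros; the target neighbourhood.
-/

namespace Pool.Agent.R82.HG

open Filter Topology

noncomputable section

/-- The entire function of a vector. -/
def Ff (y : X) (ζ : ℂ) : ℂ := co (T ζ y) 0

/-- The zeroth coordinate as a continuous functional. -/
def c0 : X →L[ℂ] ℂ :=
  (lp.evalCLM ℂ (fun _ : ℕ => ℂ) 1 0).comp ((ContinuousLinearMap.proj 0).comp X.subtypeL)

lemma c0_apply (y : X) : c0 y = co y 0 := by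
  change (y.1 0 : ℕ → ℂ) 0 = (wt 0 : ℂ) * (y.1 0 : ℕ → ℂ) 0
  simp [wt]

lemma Ff_hasDerivAt (y : X) (ζ : ℂ) : HasDerivAt (Ff y) (c0 (T ζ (Sh 1 y))) ζ := by
  rw [hasDerivAt_iff_tendsto_slope_zero]
  have h1 := (c0.continuous.tendsto (T ζ (Sh 1 y))).comp (T_deriv ζ y)
  refine h1.congr fun h => ?_
  simp only [Function.comp_apply]
  rw [map_smul, map_sub, c0_apply, c0_apply]
  rfl

lemma Ff_diff (y : X) : Differentiable ℂ (Ff y) := fun ζ => (Ff_hasDerivAt y ζ).differentiableAt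

lemma Ff_T (y : X) (w ζ : ℂ) : Ff (T w y) ζ = Ff y (w + ζ) := by
  unfold Ff
  rw [← T_add, add_comm]

lemma Ff_smul (c : ℂ) (y : X) (ζ : ℂ) : Ff (c • y) ζ = c * Ff y ζ := by
  unfold Ff
  rw [map_smul, co_smul]

lemma Ff_sub (y y' : X) (ζ : ℂ) : Ff (y - y') ζ = Ff y ζ - Ff y' ζ := by
  unfold Ff
  rw [map_sub, co_sub]

lemma Ff_tsum (y : X) (ζ : ℂ) :
    Ff y ζ = ∑' j : ℕ, ζ ^ j / (j.factorial : ℂ) * co y j := by
  unfold Ff
  rw [co_T]
  simp only [zero_add]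

lemma Ff_dl (ζ : ℂ) : Ff (dl 1) ζ = ζ := by
  rw [Ff_tsum, tsum_eq_single 1]
  · simp
  · intro j hj
    simp [hj]

lemma Ff_le_one (y : X) (ζ : ℂ) (hζ : ‖ζ‖ ≤ 1) : ‖Ff y ζ‖ ≤ ‖y.1 0‖ := by
  rw [Ff_tsum, L1_norm]
  have h1 : ∀ j : ℕ, ‖ζ ^ j / (j.factorial : ℂ) * co y j‖ ≤ ‖(y.1 0 : ℕ → ℂ) j‖ := by
    intro j
    rw [norm_coord, norm_mul, norm_div, norm_pow, Complex.norm_natCast]
    have h2 : ‖ζ‖ ^ j ≤ 1 := pow_le_one₀ (norm_nonneg _) hζ
    have h3 : wt j ≤ (j.factorial : ℝ) := by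
      refine le_trans ?_ (wt_cube j)
      have := one_le_wt j
      nlinarith [mul_nonneg (sub_nonneg.2 this) (sub_nonneg.2 this)]
    have hw := wt_pos j
    have h4 : (((0 : ℕ) : ℝ) + 1) ^ j = 1 := by simp
    rw [h4]
    calc ‖ζ‖ ^ j / (j.factorial : ℝ) * ‖co y j‖ ≤ 1 / wt j * ‖co y j‖ := by gcongr
      _ = 1 * ‖co y j‖ / wt j := by ring
  exact tsum_of_norm_bounded (L1_summable _).hasSum h1

lemma Ff_growth (y : X) (ζ : ℂ) : ‖Ff y ζ‖ ≤ ‖y.1 0‖ * (2 * K2 (2 * ‖ζ‖)) := by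
  rw [Ff_tsum]
  have h1 : ∀ j : ℕ, ‖ζ ^ j / (j.factorial : ℂ) * co y j‖ ≤
      (‖y.1 0‖ * K2 (2 * ‖ζ‖)) * (1 / 2) ^ j := by
    intro j
    rw [norm_mul, norm_div, norm_pow, Complex.norm_natCast]
    have hw := wt_pos j
    have h2 := pow_le_K2 (R := 2 * ‖ζ‖) (by positivity) j
    have h3 := norm_co_le y j
    have h4 := wt_cube j
    have h5 : ‖ζ‖ ^ j = (2 * ‖ζ‖) ^ j * (1 / 2) ^ j := by
      rw [← mul_pow]; congr 1; ring
    calc ‖ζ‖ ^ j / (j.factorial : ℝ) * ‖co y j‖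
        ≤ ‖ζ‖ ^ j / wt j ^ 3 * (wt j * ‖y.1 0‖) := by gcongr
      _ = (2 * ‖ζ‖) ^ j / wt j ^ 2 * (1 / 2) ^ j * ‖y.1 0‖ := by
          rw [h5]
          field_simp
      _ ≤ K2 (2 * ‖ζ‖) * (1 / 2) ^ j * ‖y.1 0‖ := by
          gcongr
          rw [div_le_iff₀ (by positivity)]
          exact h2
      _ = _ := by ring
  have h2 : HasSum (fun j : ℕ => (‖y.1 0‖ * K2 (2 * ‖ζ‖)) * (1 / 2 : ℝ) ^ j)
      ((‖y.1 0‖ * K2 (2 * ‖ζ‖)) * 2) := hasSum_geometric_two.mul_left _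
  refine (tsum_of_norm_bounded h2 h1).trans (le_of_eq ?_)
  ring

/-! ### Zeros of entire functions -/

lemma factor (f : ℂ → ℂ) (hf : Differentiable ℂ f) (S : Finset ℂ) (hS : ∀ s ∈ S, f s = 0) :
    ∃ g : ℂ → ℂ, Differentiable ℂ g ∧ ∀ w, f w = (∏ s ∈ S, (w - s)) * g w := by
  classical
  induction S using Finset.induction_on with
  | empty => exact ⟨f, hf, fun w => by simp⟩
  | insert s S hs ih =>
    obtain ⟨g, hg, hfg⟩ := ih (fun t ht => hS t (Finset.mem_insert_of_mem ht))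
    have h1 : g s = 0 := by
      have h2 := hfg s
      rw [hS s (Finset.mem_insert_self _ _)] at h2
      refine (mul_eq_zero.1 h2.symm).resolve_left ?_
      intro h4
      obtain ⟨t, ht, h3⟩ := Finset.prod_eq_zero_iff.1 h4
      rw [sub_eq_zero] at h3
      exact hs (h3 ▸ ht)
    refine ⟨dslope g s, ?_, fun w => ?_⟩
    · rw [← differentiableOn_univ]
      exact (Complex.differentiableOn_dslope univ_mem).2 hg.differentiableOn
    · have h2 := sub_smul_dslope g s w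
      rw [h1, sub_zero, smul_eq_mul] at h2
      rw [Finset.prod_insert hs, hfg w, ← h2]
      ring

lemma zeros_count (f : ℂ → ℂ) (hf : Differentiable ℂ f) (p : ℂ) (r : ℝ) (hr : 0 < r)
    (S : Finset ℂ) (hS : ∀ s ∈ S, f s = 0) (hSr : ∀ s ∈ S, ‖s - p‖ ≤ r) (M : ℝ)
    (hM : ∀ w, ‖w - p‖ = 3 * r → ‖f w‖ ≤ M) : 2 ^ S.card * ‖f p‖ ≤ M := by
  obtain ⟨g, hg, hfg⟩ := factor f hf S hS
  have h1 : ∀ w ∈ frontier (Metric.ball p (3 * r)), ‖g w‖ ≤ M / (2 * r) ^ S.card := by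
    intro w hw
    rw [frontier_ball p (by positivity), Metric.mem_sphere, dist_eq_norm] at hw
    rw [le_div_iff₀ (by positivity)]
    have h2 := hM w hw
    rw [hfg, norm_mul, norm_prod] at h2
    refine le_trans ?_ h2
    rw [mul_comm]
    apply mul_le_mul_of_nonneg_right _ (norm_nonneg _)
    rw [← Finset.prod_const]
    apply Finset.prod_le_prod
    · intro _ _
      positivity
    · intro s hs
      have h3 := hSr s hs
      have h4 : ‖w - p‖ ≤ ‖w - s‖ + ‖s - p‖ := by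
        have := norm_add_le (w - s) (s - p)
        simpa using this
      linarith
  have h2 : ‖g p‖ ≤ M / (2 * r) ^ S.card :=
    Complex.norm_le_of_forall_mem_frontier_norm_le Metric.isBounded_ball hg.diffContOnCl h1
      (subset_closure (Metric.mem_ball_self (by positivity)))
  rw [le_div_iff₀ (by positivity)] at h2
  refine le_trans ?_ h2
  rw [hfg p, norm_mul, norm_prod, mul_pow]
  have h3 : ∏ s ∈ S, ‖p - s‖ ≤ r ^ S.card := by
    rw [← Finset.prod_const]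
    apply Finset.prod_le_prod
    · intro _ _
      exact norm_nonneg _
    · intro s hs
      rw [norm_sub_rev]
      exact hSr s hs
  calc 2 ^ S.card * ((∏ s ∈ S, ‖p - s‖) * ‖g p‖) ≤ 2 ^ S.card * (r ^ S.card * ‖g p‖) := by
        gcongr
    _ = _ := by ring

/-- The target neighbourhood. -/
lemma target (G : ℂ → ℂ) (hG : Differentiable ℂ G) (d : ℝ) (hd : d < 1 / 4)
    (h : ∀ ζ : ℂ, ‖ζ‖ ≤ 1 → ‖G ζ - ζ‖ ≤ d) :
    ∃ ζ : ℂ, ‖ζ‖ ≤ 1 / 2 ∧ G ζ = 0 ∧ 1 / 2 ≤ ‖deriv G ζ‖ ∧ ‖deriv G ζ‖ ≤ 3 / 2 := by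
  have hz : ∃ ζ : ℂ, ‖ζ‖ ≤ 1 / 2 ∧ G ζ = 0 := by
    by_contra hcon
    push Not at hcon
    have h1 : ∀ w ∈ frontier (Metric.ball (0 : ℂ) (1 / 2)), ‖(fun w => (G w)⁻¹) w‖ ≤ 4 := by
      intro w hw
      rw [frontier_ball 0 (by norm_num), mem_sphere_zero_iff_norm] at hw
      have h2 := h w (by rw [hw]; norm_num)
      have h3 : 1 / 4 ≤ ‖G w‖ := by
        have h4 : ‖w‖ ≤ ‖G w‖ + ‖G w - w‖ := by
          have := norm_sub_le (G w) (G w - w)
          simpa using this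
        linarith
      rw [norm_inv]
      rw [inv_le_comm₀ (by linarith) (by norm_num)]
      linarith
    have h2 : DiffContOnCl ℂ (fun w => (G w)⁻¹) (Metric.ball (0 : ℂ) (1 / 2)) := by
      apply DiffContOnCl.inv hG.diffContOnCl
      intro w hw
      rw [closure_ball 0 (by norm_num), mem_closedBall_zero_iff] at hw
      exact hcon w hw
    have h3 := Complex.norm_le_of_forall_mem_frontier_norm_le Metric.isBounded_ball h2 h1
      (subset_closure (Metric.mem_ball_self (by norm_num)))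
    have h4 := h 0 (by simp)
    rw [sub_zero] at h4
    rw [norm_inv] at h3
    have h5 : 0 < ‖G 0‖ := norm_pos_iff.2 (hcon 0 (by simp))
    rw [inv_le_comm₀ h5 (by norm_num)] at h3
    linarith
  obtain ⟨ζ, hζ, hGζ⟩ := hz
  have h1 : ‖deriv (fun w => G w - w) ζ‖ ≤ d / (1 / 2) := by
    apply Complex.norm_deriv_le_of_forall_mem_sphere_norm_le (by norm_num)
      ((hG.sub differentiable_id).diffContOnCl)
    intro w hw
    apply h
    rw [mem_sphere_iff_norm] at hw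
    have := norm_add_le (w - ζ) ζ
    rw [sub_add_cancel] at this
    linarith
  have h2 : deriv (fun w => G w - w) ζ = deriv G ζ - 1 := by
    have h3 := (hG ζ).hasDerivAt.sub (hasDerivAt_id ζ)
    exact h3.deriv
  rw [h2] at h1
  refine ⟨ζ, hζ, hGζ, ?_, ?_⟩
  · have := norm_sub_norm_le (1 : ℂ) (deriv G ζ)
    rw [norm_one, norm_sub_rev] at this
    linarith
  · have := norm_sub_norm_le (deriv G ζ) 1
    rw [norm_one] at this
    linarith

end

end Pool.Agent.R82.HG
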