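import Pool.Agent.R82.HG.Dyn

/-!
All the operators `a T_z` with `a, z ≠ 0` are hypercyclic.
-/

namespace Pool.Agent.R82.HG

open Filter Topology TopologicalSpace

noncomputable section

lemma birkhoff (S : X →L[ℂ] X)
    (h : ∀ U V : Set X, IsOpen U → U.Nonempty → IsOpen V → V.Nonempty →
      ∃ n : ℕ, ∃ u ∈ U, (S ^ n) u ∈ V) :
    ∃ x : X, Dense (Set.range fun n : ℕ => (S ^ n) x) := by
  have hd : Dense (⋂ V ∈ countableBasis X, ⋃ n : ℕ, (S ^ n) ⁻¹' V) := by
    apply dense_biInter_of_isOpen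
    · intro V hV
      exact isOpen_iUnion fun n => (isOpen_of_mem_countableBasis hV).preimage (S ^ n).continuous
    · exact countable_countableBasis X
    · intro V hV
      rw [dense_iff_inter_open]
      intro U hU hUne
      obtain ⟨n, u, hu, hun⟩ := h U V hU hUne (isOpen_of_mem_countableBasis hV)
        (nonempty_of_mem_countableBasis hV)
      exact ⟨u, hu, Set.mem_iUnion.2 ⟨n, hun⟩⟩
  obtain ⟨x, hx⟩ := hd.nonempty
  refine ⟨x, (isBasis_countableBasis X).dense_iff.2 fun V hV _ => ?_⟩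
  have h1 := Set.mem_iInter₂.1 hx V hV
  obtain ⟨n, hn⟩ := Set.mem_iUnion.1 h1
  exact ⟨(S ^ n) x, hn, n, rfl⟩

lemma S_ex (a z l : ℂ) (n : ℕ) :
    ((a • T z) ^ n) (ex l) = (a * Complex.exp (l * z)) ^ n • ex l := by
  induction n with
  | zero => simp
  | succ n ih =>
    rw [pow_succ, mul_apply_eq_comp, FunLike.coe_smul, Pi.smul_apply, T_ex, smul_smul,
      map_smul, ih, smul_smul, pow_succ, mul_comm]

lemma S_pow (a z : ℂ) (n : ℕ) (x : X) : ((a • T z) ^ n) x = a ^ n • T (n * z) x := by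
  induction n with
  | zero => simp [T_zero]
  | succ n ih =>
    have e1 : ((n + 1 : ℕ) : ℂ) * z = z + n * z := by push_cast; ring
    rw [pow_succ', mul_apply_eq_comp, ih, FunLike.coe_smul, Pi.smul_apply, map_smul,
      smul_smul, ← T_add, pow_succ', e1]

theorem hyper (a z : ℂ) (ha : a ≠ 0) (hz : z ≠ 0) :
    ∃ x : X, Dense (Set.range fun n : ℕ => ((a • T z) ^ n) x) := by
  obtain ⟨S, hS⟩ : ∃ S : X →L[ℂ] X, S = a • T z := ⟨_, rfl⟩
  have hSex : ∀ (l : ℂ) (n : ℕ), (S ^ n) (ex l) = (a * Complex.exp (l * z)) ^ n • ex l := by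
    intro l n
    rw [hS]
    exact S_ex a z l n
  rw [← hS]
  apply birkhoff
  intro U V hU hUne hV hVne
  have hcont : Continuous fun l : ℂ => ‖a * Complex.exp (l * z)‖ := by fun_prop
  have hval : ∀ c : ℂ, c ≠ 0 → ∃ l : ℂ, a * Complex.exp (l * z) = c := by
    intro c hc
    refine ⟨Complex.log (c / a) / z, ?_⟩
    rw [div_mul_cancel₀ _ hz, Complex.exp_log (div_ne_zero hc ha)]
    field_simp
  have hm := dense_span {l : ℂ | ‖a * Complex.exp (l * z)‖ < 1}
    (isOpen_lt hcont continuous_const) (by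
      obtain ⟨l, hl⟩ := hval (1 / 2) (by norm_num)
      refine ⟨l, ?_⟩
      rw [Set.mem_ofPred_eq, hl]
      norm_num)
  have hp := dense_span {l : ℂ | 1 < ‖a * Complex.exp (l * z)‖}
    (isOpen_lt continuous_const hcont) (by
      obtain ⟨l, hl⟩ := hval 2 (by norm_num)
      refine ⟨l, ?_⟩
      rw [Set.mem_ofPred_eq, hl]
      norm_num)
  obtain ⟨u, huU, hu⟩ := hm.inter_open_nonempty U hU hUne
  obtain ⟨v, hvV, hv⟩ := hp.inter_open_nonempty V hV hVne
  have hu0 : Tendsto (fun n : ℕ => (S ^ n) u) atTop (𝓝 0) := by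
    rw [SetLike.mem_coe] at hu
    clear huU
    induction hu using Submodule.span_induction with
    | mem x hx =>
      obtain ⟨l, hl, rfl⟩ := hx
      have h1 := (tendsto_pow_atTop_nhds_zero_of_norm_lt_one hl).smul_const (ex l)
      rw [zero_smul] at h1
      exact h1.congr fun n => (hSex l n).symm
    | zero => simp
    | add x y _ _ hx hy =>
      have h1 := hx.add hy
      rw [add_zero] at h1
      exact h1.congr fun n => (map_add _ _ _).symm
    | smul c x _ hx =>
      have h1 := hx.const_smul c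
      rw [smul_zero] at h1
      exact h1.congr fun n => (map_smul _ _ _).symm
  have hw : ∃ w : ℕ → X, Tendsto w atTop (𝓝 0) ∧ ∀ n, (S ^ n) (w n) = v := by
    rw [SetLike.mem_coe] at hv
    clear hvV
    induction hv using Submodule.span_induction with
    | mem x hx =>
      obtain ⟨l, hl, rfl⟩ := hx
      rw [Set.mem_ofPred_eq] at hl
      have hne : a * Complex.exp (l * z) ≠ 0 := mul_ne_zero ha (Complex.exp_ne_zero _)
      refine ⟨fun n => ((a * Complex.exp (l * z))⁻¹) ^ n • ex l, ?_, fun n => ?_⟩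
      · have h1 : ‖(a * Complex.exp (l * z))⁻¹‖ < 1 := by
          rw [norm_inv]
          exact inv_lt_one_of_one_lt₀ hl
        have h2 := (tendsto_pow_atTop_nhds_zero_of_norm_lt_one h1).smul_const (ex l)
        rwa [zero_smul] at h2
      · rw [map_smul, hSex, smul_smul, ← mul_pow, inv_mul_cancel₀ hne, one_pow, one_smul]
    | zero => exact ⟨fun _ => 0, tendsto_const_nhds, fun n => map_zero _⟩
    | add x y _ _ hx hy =>
      obtain ⟨w1, h1, h1'⟩ := hx
      obtain ⟨w2, h2, h2'⟩ := hy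
      refine ⟨fun n => w1 n + w2 n, ?_, fun n => ?_⟩
      · have h3 := h1.add h2
        rwa [add_zero] at h3
      · rw [map_add, h1', h2']
    | smul c x _ hx =>
      obtain ⟨w1, h1, h1'⟩ := hx
      refine ⟨fun n => c • w1 n, ?_, fun n => ?_⟩
      · have h3 := h1.const_smul c
        rwa [smul_zero] at h3
      · rw [map_smul, h1']
  obtain ⟨w, hw0, hwS⟩ := hw
  have h1 : Tendsto (fun n : ℕ => u + w n) atTop (𝓝 u) := by
    have := tendsto_const_nhds (x := u) |>.add hw0
    rwa [add_zero] at this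
  have h2 : Tendsto (fun n : ℕ => (S ^ n) (u + w n)) atTop (𝓝 v) := by
    have h3 := hu0.add_const v
    rw [zero_add] at h3
    refine h3.congr fun n => ?_
    rw [map_add, hwS]
  obtain ⟨n, h3, h4⟩ := ((h1.eventually (hU.mem_nhds huU)).and
    (h2.eventually (hV.mem_nhds hvV))).exists
  exact ⟨n, u + w n, h3, h4⟩

end

end Pool.Agent.R82.HG
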