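import Pool.Agent.R82.HG.Entire

/-!
No common hypercyclic vector.
-/

namespace Pool.Agent.R82.HG

open Filter Topology MeasureTheory

noncomputable section

/-- Counting the zeros of the entire function of a vector. -/
lemma zeros_bound (x : X) (hx : ∃ p, Ff x p ≠ 0) :
    ∃ C : ℝ, 0 ≤ C ∧ ∀ n : ℕ, 1 ≤ n → ∀ S : Finset ℂ, (∀ s ∈ S, Ff x s = 0) →
      (∀ s ∈ S, ‖s‖ ≤ 2 * n + 1) → (S.card : ℝ) ≤ C * Real.sqrt n ^ 3 := by
  obtain ⟨p, hp⟩ := hx
  have hp0 : 0 < ‖Ff x p‖ := norm_pos_iff.2 hp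
  obtain ⟨P, hP⟩ : ∃ P : ℝ, P = ‖x.1 0‖ + 1 := ⟨_, rfl⟩
  have hP0 : 0 < P := by rw [hP]; positivity
  obtain ⟨A, hA⟩ : ∃ A : ℝ, A = 19 + 8 * ‖p‖ := ⟨_, rfl⟩
  have hA1 : 1 ≤ A := by rw [hA]; linarith [norm_nonneg p]
  obtain ⟨c, hc⟩ : ∃ c : ℝ, c = |Real.log (2 * P) - Real.log ‖Ff x p‖| := ⟨_, rfl⟩
  have hc0 : 0 ≤ c := by rw [hc]; exact abs_nonneg _
  refine ⟨2 * (c + 4) * Real.sqrt A ^ 3, by positivity, fun n hn S hS hSn => ?_⟩
  have hn' : (1 : ℝ) ≤ n := by exact_mod_cast hn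
  obtain ⟨t, ht⟩ : ∃ t : ℝ, t = Real.sqrt (A * n) := ⟨_, rfl⟩
  have ht1 : 1 ≤ t := by
    rw [ht, Real.one_le_sqrt]
    nlinarith
  have htsq : t ^ 2 = A * n := by rw [ht, Real.sq_sqrt (by positivity)]
  have ht3 : A * n ≤ t ^ 3 := by rw [← htsq]; nlinarith [sq_nonneg t]
  have ht31 : 1 ≤ t ^ 3 := one_le_pow₀ ht1
  have h1 := zeros_count (Ff x) (Ff_diff x) p (2 * n + 1 + ‖p‖) (by positivity) S hS
    (fun s hs => (norm_sub_le _ _).trans (by linarith [hSn s hs]))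
    (P * (2 * (A * n * (A * n) * Real.exp (t ^ 3) ^ 2))) (by
      intro w hw
      have h2 : ‖w‖ ≤ ‖p‖ + 3 * (2 * n + 1 + ‖p‖) := by
        have := norm_add_le (w - p) p
        rw [sub_add_cancel] at this
        linarith
      have h3 : 1 + 2 * ‖w‖ ≤ A * n := by
        rw [hA]
        nlinarith [norm_nonneg p]
      have h4 : K2 (2 * ‖w‖) ≤ A * n * (A * n) * Real.exp (t ^ 3) ^ 2 := by
        unfold K2
        have h5 : Real.sqrt (1 + 2 * ‖w‖) ≤ t := by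
          rw [ht]
          exact Real.sqrt_le_sqrt h3
        have h6 : 0 ≤ 1 + 2 * ‖w‖ := by positivity
        rw [pow_two (1 + 2 * ‖w‖)]
        gcongr
      refine (Ff_growth x w).trans ?_
      have h7 : 0 ≤ K2 (2 * ‖w‖) := K2_nonneg (by positivity)
      have h8 : ‖x.1 0‖ ≤ P := by rw [hP]; linarith
      gcongr)
  have h2 := Real.log_le_log (by positivity) h1
  rw [Real.log_mul (by positivity) hp0.ne', Real.log_pow, Real.log_mul hP0.ne' (by positivity),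
    Real.log_mul (by norm_num) (by positivity), Real.log_mul (by positivity) (by positivity),
    Real.log_mul (by positivity) (by positivity), Real.log_pow, Real.log_exp] at h2
  have h3 : Real.log (2 * P) = Real.log 2 + Real.log P := Real.log_mul (by norm_num) hP0.ne'
  have h4 : Real.log (A * n) ≤ A * n := (Real.log_le_sub_one_of_pos (by positivity)).trans (by linarith)
  have h5 : Real.log (2 * P) - Real.log ‖Ff x p‖ ≤ c := by rw [hc]; exact le_abs_self _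
  have h6 := Real.log_two_gt_d9
  have h7 : (S.card : ℝ) * Real.log 2 ≤ c + 4 * t ^ 3 := by
    push_cast at h2
    linarith
  have h8 : (S.card : ℝ) * (1 / 2) ≤ (S.card : ℝ) * Real.log 2 := by
    apply mul_le_mul_of_nonneg_left _ (Nat.cast_nonneg _)
    linarith
  have h9 : t ^ 3 = Real.sqrt A ^ 3 * Real.sqrt n ^ 3 := by
    rw [ht, Real.sqrt_mul (by linarith), mul_pow]
  rw [mul_assoc, ← h9]
  nlinarith

/-- The set of zeros in a disc. -/
lemma zeros_finite (x : X) (hx : ∃ p, Ff x p ≠ 0) :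
    ∃ C : ℝ, 0 ≤ C ∧ ∀ n : ℕ, 1 ≤ n → ∃ S : Finset ℂ, (S.card : ℝ) ≤ C * Real.sqrt n ^ 3 ∧
      ∀ s, Ff x s = 0 → ‖s‖ ≤ 2 * n + 1 → s ∈ S := by
  obtain ⟨C, hC, h⟩ := zeros_bound x hx
  refine ⟨C, hC, fun n hn => ?_⟩
  have hfin : {s : ℂ | Ff x s = 0 ∧ ‖s‖ ≤ 2 * n + 1}.Finite := by
    by_contra hinf
    have hinf' : Set.Infinite {s : ℂ | Ff x s = 0 ∧ ‖s‖ ≤ 2 * n + 1} := hinf
    obtain ⟨S, hS, hSc⟩ := hinf'.exists_subset_card_eq (⌊C * Real.sqrt n ^ 3⌋₊ + 1)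
    have h1 := h n hn S (fun s hs => (hS hs).1) (fun s hs => (hS hs).2)
    rw [hSc] at h1
    have h2 := Nat.lt_floor_add_one (C * Real.sqrt n ^ 3)
    push_cast at h1
    linarith
  refine ⟨hfin.toFinset, ?_, fun s h1 h2 => ?_⟩
  · apply h n hn
    · intro s hs
      exact ((Set.Finite.mem_toFinset hfin).1 hs).1
    · intro s hs
      exact ((Set.Finite.mem_toFinset hfin).1 hs).2
  · exact (Set.Finite.mem_toFinset hfin).2 ⟨h1, h2⟩

/-- The interval of parameters. -/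
lemma interval_volume (b : ℝ) (n : ℕ) (hn : 1 ≤ n) :
    volume {a : ℝ | (1 ≤ a ∧ a ≤ 2) ∧ 1 / 2 ≤ a ^ n * b ∧ a ^ n * b ≤ 3 / 2} ≤
      ENNReal.ofReal (8 / n) := by
  have hn' : (1 : ℝ) ≤ n := by exact_mod_cast hn
  rcases Set.eq_empty_or_nonempty
    {a : ℝ | (1 ≤ a ∧ a ≤ 2) ∧ 1 / 2 ≤ a ^ n * b ∧ a ^ n * b ≤ 3 / 2} with h | ⟨a0, ha0⟩
  · rw [h, measure_empty]
    exact bot_le
  · have key : ∀ a a' : ℝ, 1 ≤ a → a ≤ 2 → 1 / 2 ≤ a ^ n * b → a' ^ n * b ≤ 3 / 2 → a ≤ a' →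
        a' - a ≤ 4 / n := by
      intro a a' h1 h2 h3 h4 h5
      have hb : 0 < b := by
        have : 0 < a ^ n := by positivity
        by_contra hb
        push Not at hb
        nlinarith
      have h6 : 1 + n * (a' / a - 1) ≤ (a' / a) ^ n := by
        have h7 := one_add_mul_le_pow (a := a' / a - 1) (by
          have : 1 ≤ a' / a := (one_le_div (by linarith)).2 h5
          linarith) n
        rwa [add_sub_cancel] at h7
      have h7 : (a' / a) ^ n ≤ 3 := by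
        rw [div_pow, div_le_iff₀ (by positivity)]
        have h8 : a' ^ n * b ≤ 3 * a ^ n * b := by linarith
        exact le_of_mul_le_mul_right h8 hb
      have h8 : n * (a' - a) ≤ 4 := by
        have h9 : n * (a' / a - 1) ≤ 2 := by linarith
        have h10 : n * (a' - a) = n * (a' / a - 1) * a := by field_simp
        rw [h10]
        nlinarith
      rw [le_div_iff₀ (by linarith)]
      linarith
    calc volume {a : ℝ | (1 ≤ a ∧ a ≤ 2) ∧ 1 / 2 ≤ a ^ n * b ∧ a ^ n * b ≤ 3 / 2}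
        ≤ volume (Set.Icc (a0 - 4 / n) (a0 + 4 / n)) := by
          apply measure_mono
          intro a ha
          rw [Set.mem_Icc]
          rcases le_total a a0 with h | h
          · have := key a a0 ha.1.1 ha.1.2 ha.2.1 ha0.2.2 h
            have h4 : (0 : ℝ) ≤ 4 / n := by positivity
            constructor <;> linarith
          · have := key a0 a ha0.1.1 ha0.1.2 ha0.2.1 ha.2.2 h
            have h4 : (0 : ℝ) ≤ 4 / n := by positivity
            constructor <;> linarith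
      _ = ENNReal.ofReal (8 / n) := by
          rw [Real.volume_Icc]
          congr 1
          ring

/-- The parameters taken care of at time `n`. -/
def Dn (x : X) (n : ℕ) : Set (ℂ × ℝ) :=
  {q | q ∈ Metric.ball (1 : ℂ) 1 ×ˢ Set.Icc (1 : ℝ) 2 ∧
    ‖((q.2 : ℂ) ^ n • T (n * q.1) x - dl 1).1 0‖ < 1 / 4}

lemma Dn_sub (x : X) (n : ℕ) (hn : 1 ≤ n) (S : Finset ℂ)
    (hS : ∀ s, Ff x s = 0 → ‖s‖ ≤ 2 * n + 1 → s ∈ S) :
    Dn x n ⊆ ⋃ w ∈ S, Metric.ball (w / n) (1 / n) ×ˢ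
      {a : ℝ | (1 ≤ a ∧ a ≤ 2) ∧ 1 / 2 ≤ a ^ n * ‖deriv (Ff x) w‖ ∧
        a ^ n * ‖deriv (Ff x) w‖ ≤ 3 / 2} := by
  rintro ⟨z, a⟩ ⟨⟨hz, ha⟩, hq⟩
  simp only at hz ha hq
  have hn' : (1 : ℝ) ≤ n := by exact_mod_cast hn
  have hnC : (n : ℂ) ≠ 0 := by exact_mod_cast (by omega : n ≠ 0)
  rw [Set.mem_Icc] at ha
  have ha0 : (a : ℂ) ^ n ≠ 0 := by
    apply pow_ne_zero
    exact_mod_cast (by linarith : a ≠ 0)
  obtain ⟨y, hy⟩ : ∃ y : X, y = (a : ℂ) ^ n • T (n * z) x := ⟨_, rfl⟩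
  rw [← hy] at hq
  obtain ⟨ζ, h1, h2, h3, h4⟩ := target (Ff y) (Ff_diff y) _ hq (fun ζ hζ => by
    have h5 := Ff_le_one (y - dl 1) ζ hζ
    rwa [Ff_sub, Ff_dl] at h5)
  have hFy : Ff y = fun ζ => (a : ℂ) ^ n * Ff x (n * z + ζ) := by
    funext ζ
    rw [hy, Ff_smul, Ff_T]
  have hz2 : ‖z‖ ≤ 2 := by
    rw [Metric.mem_ball, dist_eq_norm] at hz
    have := norm_add_le (z - 1) 1
    rw [sub_add_cancel, norm_one] at this
    linarith
  have hw0 : Ff x (n * z + ζ) = 0 := by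
    rw [hFy] at h2
    exact (mul_eq_zero.1 h2).resolve_left ha0
  have hwn : ‖(n : ℂ) * z + ζ‖ ≤ 2 * n + 1 := by
    refine (norm_add_le _ _).trans ?_
    rw [norm_mul, Complex.norm_natCast]
    have : (n : ℝ) * ‖z‖ ≤ n * 2 := by gcongr
    linarith
  have hder : ‖deriv (Ff y) ζ‖ = a ^ n * ‖deriv (Ff x) (n * z + ζ)‖ := by
    have h5 : HasDerivAt (fun ζ => (a : ℂ) ^ n * Ff x (n * z + ζ))
        ((a : ℂ) ^ n * deriv (Ff x) (n * z + ζ)) ζ := by
      apply HasDerivAt.const_mul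
      have h6 := (Ff_diff x (n * z + ζ)).hasDerivAt
      exact h6.comp_const_add (n * z) ζ
    rw [hFy, h5.deriv, norm_mul, norm_pow, Complex.norm_real, Real.norm_of_nonneg (by linarith)]
  rw [Set.mem_iUnion₂]
  refine ⟨n * z + ζ, hS _ hw0 hwn, ?_, ha, ?_, ?_⟩
  · simp only
    rw [Metric.mem_ball, dist_eq_norm]
    have h5 : z - ((n : ℂ) * z + ζ) / n = -(ζ / n) := by field_simp; ring
    rw [h5, norm_neg, norm_div, Complex.norm_natCast]
    apply div_lt_div_of_pos_right _ (by linarith)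
    linarith
  · simp only
    rw [← hder]
    exact h3
  · simp only
    rw [← hder]
    exact h4

lemma Dn_volume (x : X) (hx : ∃ p, Ff x p ≠ 0) :
    ∃ C : ℝ, 0 ≤ C ∧ ∀ n : ℕ, 1 ≤ n →
      (volume : Measure (ℂ × ℝ)) (Dn x n) ≤ ENNReal.ofReal (C * (Real.sqrt n ^ 3 / n ^ 3)) := by
  obtain ⟨C, hC, h⟩ := zeros_finite x hx
  refine ⟨C * (Real.pi * 8), by positivity, fun n hn => ?_⟩
  have hn' : (1 : ℝ) ≤ n := by exact_mod_cast hn
  obtain ⟨S, hSc, hS⟩ := h n hn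
  refine (measure_mono (Dn_sub x n hn S hS)).trans ?_
  refine (measure_biUnion_finset_le S _).trans ?_
  have h1 : ∀ w ∈ S, (volume : Measure (ℂ × ℝ)) (Metric.ball (w / n) (1 / n) ×ˢ
      {a : ℝ | (1 ≤ a ∧ a ≤ 2) ∧ 1 / 2 ≤ a ^ n * ‖deriv (Ff x) w‖ ∧
        a ^ n * ‖deriv (Ff x) w‖ ≤ 3 / 2}) ≤ ENNReal.ofReal (Real.pi * 8 / n ^ 3) := by
    intro w _
    rw [Measure.volume_eq_prod, Measure.prod_prod]
    refine (mul_le_mul' le_rfl (interval_volume _ n hn)).trans (le_of_eq ?_)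
    rw [Complex.volume_ball]
    have e1 : (NNReal.pi : ENNReal) = ENNReal.ofReal Real.pi := by
      rw [ENNReal.ofReal, ← NNReal.coe_real_pi, Real.toNNReal_coe]
    rw [e1, ← ENNReal.ofReal_pow (by positivity), ← ENNReal.ofReal_mul (by positivity),
      ← ENNReal.ofReal_mul (by positivity)]
    congr 1
    field_simp
  refine (Finset.sum_le_card_nsmul S _ _ h1).trans ?_
  rw [nsmul_eq_mul, ← ENNReal.ofReal_natCast, ← ENNReal.ofReal_mul (Nat.cast_nonneg _)]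
  apply ENNReal.ofReal_le_ofReal
  calc (S.card : ℝ) * (Real.pi * 8 / n ^ 3) ≤ (C * Real.sqrt n ^ 3) * (Real.pi * 8 / n ^ 3) := by
        gcongr
    _ = _ := by ring

lemma summable_aux (C : ℝ) :
    Summable fun n : ℕ => C * (Real.sqrt (n + 1 : ℕ) ^ 3 / ((n + 1 : ℕ) : ℝ) ^ 3) := by
  apply Summable.mul_left
  have h1 : Summable fun n : ℕ => 1 / ((n : ℝ)) ^ (3 / 2 : ℝ) :=
    Real.summable_one_div_nat_rpow.2 (by norm_num)
  have h2 := (summable_nat_add_iff 1).2 h1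
  refine h2.congr fun n => ?_
  have hn : (0 : ℝ) < ((n + 1 : ℕ) : ℝ) := by positivity
  rw [Real.sqrt_eq_rpow, ← Real.rpow_natCast, ← Real.rpow_natCast, ← Real.rpow_mul hn.le,
    ← Real.rpow_sub hn, one_div, ← Real.rpow_neg hn.le]
  congr 1
  norm_num

/-- There is no common hypercyclic vector. -/
theorem no_common (x : X)
    (h : ∀ a z : ℂ, a ≠ 0 → z ≠ 0 → Dense (Set.range fun n : ℕ => ((a • T z) ^ n) x)) :
    False := by
  have hnt : Nontrivial X := ⟨⟨dl 0, 0, fun h0 => by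
    have := congrArg (fun y => co y 0) h0
    simp only [co_dl, Pi.single_eq_same] at this
    have h1 : co (0 : X) 0 = 0 := by
      have := co_smul 0 (0 : X) 0
      rwa [zero_smul, zero_mul] at this
    rw [h1] at this
    exact one_ne_zero this⟩⟩
  have hnb : ∀ y : X, NeBot (𝓝[≠] y) := fun y => Module.punctured_nhds_neBot ℂ X y
  -- the entire function does not vanish identically
  have hx : ∃ p, Ff x p ≠ 0 := by
    by_contra hcon
    push Not at hcon
    -- every vector of the orbit has zeroth coordinate 0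
    have h1 := h 1 1 one_ne_zero one_ne_zero
    have h2 : ∀ y : X, c0 y = 0 := by
      have h3 : IsClosed {y : X | c0 y = 0} := isClosed_eq c0.continuous continuous_const
      have h4 : (Set.range fun n : ℕ => (((1 : ℂ) • T 1) ^ n) x) ⊆ {y : X | c0 y = 0} := by
        rintro _ ⟨n, rfl⟩
        change c0 ((((1 : ℂ) • T 1) ^ n) x) = 0
        rw [S_pow, one_pow, one_smul, c0_apply]
        exact hcon _
      intro y
      have h5 := closure_minimal h4 h3 (h1 y)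
      exact h5
    have h3 := h2 (dl 0)
    rw [c0_apply, co_dl, Pi.single_eq_same] at h3
    exact one_ne_zero h3
  obtain ⟨C, hC, hvol⟩ := Dn_volume x hx
  -- every parameter is in infinitely many of the sets
  have hfreq : ∀ q ∈ Metric.ball (1 : ℂ) 1 ×ˢ Set.Icc (1 : ℝ) 2,
      ∃ᶠ n : ℕ in atTop, q ∈ Dn x (n + 1) := by
    rintro ⟨z, a⟩ hq
    obtain ⟨hz, ha⟩ := hq
    simp only at hz ha
    rw [Set.mem_Icc] at ha
    have ha0 : (a : ℂ) ≠ 0 := by exact_mod_cast (by linarith : a ≠ 0)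
    have hz0 : z ≠ 0 := by
      rintro rfl
      rw [Metric.mem_ball, dist_eq_norm] at hz
      simp at hz
    have hd := h a z ha0 hz0
    rw [frequently_atTop]
    intro N
    have hfin : ((fun n : ℕ => (((a : ℂ) • T z) ^ n) x) '' (Set.Iic N)).Finite :=
      (Set.finite_Iic N).image _
    have hd2 := hd.sdiff_finite hfin
    have hopen : IsOpen {y : X | ‖(y - dl 1).1 0‖ < 1 / 4} := by
      apply isOpen_lt _ continuous_const
      exact ((continuous_apply 0).comp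
        (continuous_subtype_val.comp (continuous_id.sub continuous_const))).norm
    obtain ⟨y, hy1, hy2⟩ := hd2.inter_open_nonempty _ hopen ⟨dl 1, by
      change ‖(dl 1 - dl 1).1 0‖ < 1 / 4
      rw [sub_self]
      simp⟩
    obtain ⟨⟨n, hn⟩, hn2⟩ := hy2
    have hnN : N < n := by
      by_contra hle
      push Not at hle
      exact hn2 ⟨n, hle, hn⟩
    refine ⟨n - 1, by omega, ⟨hz, ha⟩, ?_⟩
    have e1 : n - 1 + 1 = n := by omega
    rw [e1]
    have hn3 : (a : ℂ) ^ n • T (n * z) x = y := by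
      rw [← S_pow]
      exact hn
    simp only
    rw [hn3]
    exact hy1
  have hnull : (volume : Measure (ℂ × ℝ)) {q | ∃ᶠ n : ℕ in atTop, q ∈ Dn x (n + 1)} = 0 := by
    apply measure_setOfPred_frequently_eq_zero
    have h1 : ∑' n : ℕ, (volume : Measure (ℂ × ℝ)) {q | q ∈ Dn x (n + 1)} ≤
        ∑' n : ℕ, ENNReal.ofReal (C * (Real.sqrt (n + 1 : ℕ) ^ 3 / ((n + 1 : ℕ) : ℝ) ^ 3)) :=
      ENNReal.tsum_le_tsum fun n => hvol (n + 1) (by omega)
    exact (lt_of_le_of_lt h1 (summable_aux C).tsum_ofReal_lt_top).ne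
  have h1 : (volume : Measure (ℂ × ℝ)) (Metric.ball (1 : ℂ) 1 ×ˢ Set.Icc (1 : ℝ) 2) = 0 :=
    le_antisymm (hnull ▸ measure_mono hfreq) bot_le
  rw [Measure.volume_eq_prod, Measure.prod_prod, Complex.volume_ball, Real.volume_Icc] at h1
  have h2 : (2 : ℝ) - 1 = 1 := by norm_num
  rw [h2, ENNReal.ofReal_one, one_pow, one_mul, mul_one] at h1
  have h3 : (NNReal.pi : ENNReal) ≠ 0 := by
    exact_mod_cast NNReal.pi_ne_zero
  exact h3 h1

end

end Pool.Agent.R82.HG
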