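import Pool.Agent.R82.HG.Space

/-!
Factorial estimates, exponentials, shifts and the operator group on the space `X`.
-/

namespace Pool.Agent.R82.HG

open Filter Topology

noncomputable section

/-! ### Factorial estimates -/

/-- A bound for `R ^ j / wt j`. -/
def K1 (R : ℝ) : ℝ := (1 + R) ^ 2 * Real.exp ((1 + R) ^ 3)

/-- A bound for `R ^ j / wt j ^ 2`. -/
def K2 (R : ℝ) : ℝ := (1 + R) ^ 2 * Real.exp (Real.sqrt (1 + R) ^ 3) ^ 2

lemma pow_split {R : ℝ} (hR : 0 ≤ R) (j : ℕ) :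
    R ^ j ≤ (1 + R) ^ 2 * ((1 + R) ^ 3) ^ (j / 3) := by
  calc R ^ j ≤ (1 + R) ^ j := pow_le_pow_left₀ hR (by linarith) j
    _ = (1 + R) ^ (j % 3 + 3 * (j / 3)) := by rw [Nat.mod_add_div]
    _ = (1 + R) ^ (j % 3) * ((1 + R) ^ 3) ^ (j / 3) := by rw [pow_add, pow_mul]
    _ ≤ (1 + R) ^ 2 * ((1 + R) ^ 3) ^ (j / 3) := by
      apply mul_le_mul_of_nonneg_right _ (by positivity)
      apply pow_le_pow_right₀ (by linarith)
      omega

lemma pow_le_fac {x : ℝ} (hx : 0 ≤ x) (n : ℕ) : x ^ n ≤ Real.exp x * n.factorial := by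
  have h := Real.pow_div_factorial_le_exp x hx n
  rwa [div_le_iff₀ (by positivity)] at h

lemma pow_le_K1 {R : ℝ} (hR : 0 ≤ R) (j : ℕ) : R ^ j ≤ K1 R * wt j := by
  refine (pow_split hR j).trans ?_
  unfold K1 wt
  rw [mul_assoc]
  apply mul_le_mul_of_nonneg_left _ (by positivity)
  exact pow_le_fac (by positivity) _

lemma pow_le_K2 {R : ℝ} (hR : 0 ≤ R) (j : ℕ) : R ^ j ≤ K2 R * wt j ^ 2 := by
  refine (pow_split hR j).trans ?_
  unfold K2 wt
  rw [mul_assoc]
  apply mul_le_mul_of_nonneg_left _ (by positivity)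
  have h1 : (1 + R) ^ 3 = (Real.sqrt (1 + R) ^ 3) ^ 2 := by
    rw [← pow_mul, mul_comm 3 2, pow_mul, Real.sq_sqrt (by linarith)]
  rw [h1, ← pow_mul, mul_comm 2 (j / 3), pow_mul, ← mul_pow]
  apply pow_le_pow_left₀ (by positivity)
  exact pow_le_fac (by positivity) _

lemma K1_nonneg {R : ℝ} (hR : 0 ≤ R) : 0 ≤ K1 R := by unfold K1; positivity

lemma K2_nonneg {R : ℝ} (hR : 0 ≤ R) : 0 ≤ K2 R := by unfold K2; positivity

lemma wt_cube (j : ℕ) : wt j ^ 3 ≤ (j.factorial : ℝ) := by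
  unfold wt
  have h1 : (j / 3).factorial * (j / 3).factorial ≤ (j / 3 + j / 3).factorial :=
    Nat.le_of_dvd (Nat.factorial_pos _) (Nat.factorial_mul_factorial_dvd_factorial_add _ _)
  have h2 : (j / 3 + j / 3).factorial * (j / 3).factorial ≤ (j / 3 + j / 3 + j / 3).factorial :=
    Nat.le_of_dvd (Nat.factorial_pos _) (Nat.factorial_mul_factorial_dvd_factorial_add _ _)
  have h3 : (j / 3 + j / 3 + j / 3).factorial ≤ j.factorial := Nat.factorial_le (by omega)
  have h4 : (j / 3).factorial ^ 3 ≤ j.factorial := by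
    calc (j / 3).factorial ^ 3 = (j / 3).factorial * (j / 3).factorial * (j / 3).factorial := by
          ring
      _ ≤ (j / 3 + j / 3).factorial * (j / 3).factorial := Nat.mul_le_mul_right _ h1
      _ ≤ _ := h2.trans h3
  exact_mod_cast h4

/-- The norm bound for the `j`-th power of the shift. -/
def cj (j : ℕ) : ℝ := 2 * ((j / 3 + 1).factorial : ℝ)

lemma cj_pos (j : ℕ) : 0 < cj j := by unfold cj; positivity

lemma wt_add (k j : ℕ) : wt (k + j) ≤ 2 ^ (k + j) * wt k * cj j := by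
  have h1 : ((k + j) / 3).factorial ≤ (k / 3 + (j / 3 + 1)).factorial :=
    Nat.factorial_le (by omega)
  have h2 : (k / 3 + (j / 3 + 1)).factorial =
      (k / 3 + (j / 3 + 1)).choose (k / 3) * (k / 3).factorial * (j / 3 + 1).factorial := by
    have h := Nat.choose_mul_factorial_mul_factorial (Nat.le_add_right (k / 3) (j / 3 + 1))
    rw [Nat.add_sub_cancel_left] at h
    exact h.symm
  have h3 : (k / 3 + (j / 3 + 1)).choose (k / 3) ≤ 2 ^ (k + j + 1) := by
    refine (Nat.choose_le_two_pow _ _).trans ?_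
    exact Nat.pow_le_pow_right (by norm_num) (by omega)
  have h4 : ((k + j) / 3).factorial ≤
      2 ^ (k + j + 1) * (k / 3).factorial * (j / 3 + 1).factorial := by
    rw [h2] at h1
    refine h1.trans ?_
    exact Nat.mul_le_mul_right _ (Nat.mul_le_mul_right _ h3)
  have h5 : (((k + j) / 3).factorial : ℝ) ≤
      2 ^ (k + j + 1) * ((k / 3).factorial : ℝ) * ((j / 3 + 1).factorial : ℝ) := by
    exact_mod_cast h4
  unfold wt cj
  calc (((k + j) / 3).factorial : ℝ)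
      ≤ 2 ^ (k + j + 1) * ((k / 3).factorial : ℝ) * ((j / 3 + 1).factorial : ℝ) := h5
    _ = _ := by rw [pow_succ]; ring

lemma cj_le (j : ℕ) : cj j / (j.factorial : ℝ) ≤ 2 * 2 ^ j / wt j ^ 2 := by
  have hw := wt_pos j
  rw [div_le_div_iff₀ (by positivity) (by positivity)]
  have h1 : cj j ≤ 2 * 2 ^ j * wt j := by
    unfold cj wt
    rw [Nat.factorial_succ]
    have h2 : j / 3 + 1 ≤ 2 ^ j := by
      have := Nat.lt_two_pow_self (n := j)
      omega
    have h3 : ((j / 3 + 1 : ℕ) : ℝ) ≤ 2 ^ j := by exact_mod_cast h2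
    rw [Nat.cast_mul, mul_assoc 2 (2 ^ j)]
    gcongr
  calc cj j * wt j ^ 2 ≤ 2 * 2 ^ j * wt j * wt j ^ 2 := by gcongr
    _ = 2 * 2 ^ j * wt j ^ 3 := by ring
    _ ≤ 2 * 2 ^ j * (j.factorial : ℝ) := by
      gcongr
      exact wt_cube j

lemma cj_term {r : ℝ} (hr : 0 ≤ r) (j : ℕ) :
    r ^ j * (cj j / (j.factorial : ℝ)) ≤ 2 * K2 (4 * r) * (1 / 2) ^ j := by
  have hw := wt_pos j
  calc r ^ j * (cj j / (j.factorial : ℝ)) ≤ r ^ j * (2 * 2 ^ j / wt j ^ 2) :=
        mul_le_mul_of_nonneg_left (cj_le j) (by positivity)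
    _ = 2 * ((4 * r) ^ j / wt j ^ 2) * (1 / 2) ^ j := by
        have : (4 * r) ^ j = 2 ^ j * 2 ^ j * r ^ j := by
          rw [← mul_pow, ← mul_pow]; norm_num
        rw [this, one_div, inv_pow]
        field_simp
    _ ≤ 2 * K2 (4 * r) * (1 / 2) ^ j := by
        apply mul_le_mul_of_nonneg_right _ (by positivity)
        apply mul_le_mul_of_nonneg_left _ (by norm_num)
        rw [div_le_iff₀ (by positivity)]
        exact pow_le_K2 (by positivity) j

lemma summable_cj {r : ℝ} (hr : 0 ≤ r) :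
    Summable fun j : ℕ => r ^ j * (cj j / (j.factorial : ℝ)) := by
  refine Summable.of_nonneg_of_le (fun j => ?_) (fun j => cj_term hr j)
    ((summable_geometric_of_lt_one (by norm_num) (by norm_num)).mul_left _)
  have := cj_pos j
  positivity

/-! ### Exponentials and unit vectors -/

lemma ex_summable (l : ℂ) (m : ℕ) :
    Summable fun k => ((m : ℝ) + 1) ^ k * ‖l ^ k‖ / wt k := by
  have hR : 0 ≤ 2 * (((m : ℝ) + 1) * ‖l‖) := by positivity
  refine Summable.of_nonneg_of_le (fun k => ?_) (fun k => ?_)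
    ((summable_geometric_of_lt_one (r := (1 / 2 : ℝ)) (by norm_num) (by norm_num)).mul_left
      (K1 (2 * (((m : ℝ) + 1) * ‖l‖))))
  · have := wt_pos k
    positivity
  · have hw := wt_pos k
    rw [div_le_iff₀ hw]
    have h1 := pow_le_K1 hR k
    have h2 : ((m : ℝ) + 1) ^ k * ‖l ^ k‖ = (2 * (((m : ℝ) + 1) * ‖l‖)) ^ k * (1 / 2) ^ k := by
      rw [norm_pow, ← mul_pow, ← mul_pow]
      congr 1
      ring
    rw [h2]
    calc (2 * (((m : ℝ) + 1) * ‖l‖)) ^ k * (1 / 2) ^ k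
        ≤ (K1 (2 * (((m : ℝ) + 1) * ‖l‖)) * wt k) * (1 / 2) ^ k := by gcongr
      _ = _ := by ring

/-- The exponential function `w ↦ exp (l w)`. -/
def ex (l : ℂ) : X := mk (fun k => l ^ k) (ex_summable l)

@[simp] lemma co_ex (l : ℂ) (k : ℕ) : co (ex l) k = l ^ k := co_mk _ _ _

lemma dl_summable (i m : ℕ) :
    Summable fun k => ((m : ℝ) + 1) ^ k * ‖(Pi.single i 1 : ℕ → ℂ) k‖ / wt k := by
  apply summable_of_ne_finset_zero (s := {i})
  intro k hk
  rw [Finset.mem_singleton] at hk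
  rw [Pi.single_eq_of_ne hk]
  simp

/-- The unit vectors. -/
def dl (i : ℕ) : X := mk (Pi.single i 1) (dl_summable i)

@[simp] lemma co_dl (i k : ℕ) : co (dl i) k = (Pi.single i 1 : ℕ → ℂ) k := co_mk _ _ _

/-! ### Powers of the backward shift -/

lemma sh_term (j m : ℕ) (y : X) (k : ℕ) :
    ((m : ℝ) + 1) ^ k * ‖co y (k + j)‖ / wt k ≤
      cj j * ‖(y.1 (2 * m + 1) : ℕ → ℂ) (k + j)‖ := by
  rw [norm_coord]
  have h1 := wt_add k j
  have hw := wt_pos k
  have hw' := wt_pos (k + j)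
  have hc := cj_pos j
  have h2 : (((2 * m + 1 : ℕ) : ℝ) + 1) = 2 * ((m : ℝ) + 1) := by push_cast; ring
  rw [h2, mul_pow, ← mul_div_assoc, div_le_div_iff₀ hw hw']
  have h3 : ((m : ℝ) + 1) ^ k ≤ ((m : ℝ) + 1) ^ (k + j) :=
    pow_le_pow_right₀ (by linarith [Nat.cast_nonneg (α := ℝ) m]) (by omega)
  calc ((m : ℝ) + 1) ^ k * ‖co y (k + j)‖ * wt (k + j)
      ≤ ((m : ℝ) + 1) ^ (k + j) * ‖co y (k + j)‖ * (2 ^ (k + j) * wt k * cj j) := by gcongr
    _ = _ := by ring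

lemma sh_summable (j : ℕ) (y : X) (m : ℕ) :
    Summable fun k => ((m : ℝ) + 1) ^ k * ‖co y (k + j)‖ / wt k := by
  refine Summable.of_nonneg_of_le (fun k => ?_) (fun k => sh_term j m y k)
    (((summable_nat_add_iff j).2 (L1_summable (y.1 (2 * m + 1)))).mul_left _)
  have := wt_pos k
  positivity

/-- The `j`-th power of the backward shift. -/
def Sh (j : ℕ) (y : X) : X := mk (fun k => co y (k + j)) (sh_summable j y)

@[simp] lemma co_Sh (j : ℕ) (y : X) (k : ℕ) : co (Sh j y) k = co y (k + j) := co_mk _ _ _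

lemma Sh_zero (y : X) : Sh 0 y = y := X_ext fun k => by simp

lemma norm_Sh (j m : ℕ) (y : X) : ‖(Sh j y).1 m‖ ≤ cj j * ‖y.1 (2 * m + 1)‖ := by
  rw [L1_norm, L1_norm]
  have h1 : ∀ k, ‖((Sh j y).1 m : ℕ → ℂ) k‖ ≤ cj j * ‖(y.1 (2 * m + 1) : ℕ → ℂ) (k + j)‖ := by
    intro k
    rw [norm_coord, co_Sh]
    exact sh_term j m y k
  have hs := L1_summable (y.1 (2 * m + 1))
  calc ∑' k, ‖((Sh j y).1 m : ℕ → ℂ) k‖
      ≤ ∑' k, cj j * ‖(y.1 (2 * m + 1) : ℕ → ℂ) (k + j)‖ :=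
        (L1_summable _).tsum_le_tsum h1 (((summable_nat_add_iff j).2 hs).mul_left _)
    _ = cj j * ∑' k, ‖(y.1 (2 * m + 1) : ℕ → ℂ) (k + j)‖ := tsum_mul_left
    _ ≤ cj j * ∑' k, ‖(y.1 (2 * m + 1) : ℕ → ℂ) k‖ := by
        apply mul_le_mul_of_nonneg_left _ (cj_pos j).le
        rw [← hs.sum_add_tsum_nat_add j]
        have : 0 ≤ ∑ i ∈ Finset.range j, ‖(y.1 (2 * m + 1) : ℕ → ℂ) i‖ :=
          Finset.sum_nonneg fun _ _ => norm_nonneg _
        linarith

/-! ### The group -/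

lemma norm_term (z : ℂ) (y : X) (m j : ℕ) :
    ‖(z ^ j / (j.factorial : ℂ)) • (Sh j y).1 m‖ ≤
      ‖z‖ ^ j * (cj j / (j.factorial : ℝ)) * ‖y.1 (2 * m + 1)‖ := by
  rw [norm_smul, norm_div, norm_pow, Complex.norm_natCast]
  have h1 := norm_Sh j m y
  calc ‖z‖ ^ j / (j.factorial : ℝ) * ‖(Sh j y).1 m‖
      ≤ ‖z‖ ^ j / (j.factorial : ℝ) * (cj j * ‖y.1 (2 * m + 1)‖) := by gcongr
    _ = _ := by ring

lemma summable_norm_term (z : ℂ) (y : X) (m : ℕ) :
    Summable fun j : ℕ => ‖(z ^ j / (j.factorial : ℂ)) • (Sh j y).1 m‖ :=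
  Summable.of_nonneg_of_le (fun _ => norm_nonneg _) (fun j => norm_term z y m j)
    ((summable_cj (norm_nonneg z)).mul_right _)

lemma summable_term (z : ℂ) (y : X) (m : ℕ) :
    Summable fun j : ℕ => (z ^ j / (j.factorial : ℂ)) • (Sh j y).1 m :=
  (summable_norm_term z y m).of_norm

lemma term_coord (z : ℂ) (y : X) (m k : ℕ) :
    ((∑' j : ℕ, (z ^ j / (j.factorial : ℂ)) • (Sh j y).1 m : L1) : ℕ → ℂ) k =
      ∑' j : ℕ, z ^ j / (j.factorial : ℂ) * ((Sh j y).1 m : ℕ → ℂ) k := by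
  have h := (lp.evalCLM ℂ (fun _ : ℕ => ℂ) 1 k).map_tsum (summable_term z y m)
  exact h

/-- The operators of the group, as functions. -/
def T0 (z : ℂ) (y : X) : X :=
  ⟨fun m => ∑' j : ℕ, (z ^ j / (j.factorial : ℂ)) • (Sh j y).1 m, by
    intro m k
    simp only
    rw [term_coord, term_coord, ← tsum_mul_left]
    refine tsum_congr fun j => ?_
    rw [X_rel (Sh j y) m k]
    ring⟩

lemma T0_coord (z : ℂ) (y : X) (m : ℕ) :
    (T0 z y).1 m = ∑' j : ℕ, (z ^ j / (j.factorial : ℂ)) • (Sh j y).1 m := rfl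

lemma co_T0 (z : ℂ) (y : X) (k : ℕ) :
    co (T0 z y) k = ∑' j : ℕ, z ^ j / (j.factorial : ℂ) * co y (k + j) := by
  unfold co
  rw [T0_coord, term_coord, ← tsum_mul_left]
  refine tsum_congr fun j => ?_
  have h := co_Sh j y k
  unfold co at h
  rw [mul_left_comm, h]

lemma summable_co (z : ℂ) (y : X) (k : ℕ) :
    Summable fun j : ℕ => z ^ j / (j.factorial : ℂ) * co y (k + j) := by
  have h1 := (lp.evalCLM ℂ (fun _ : ℕ => ℂ) 1 k).summable (summable_term z y 0)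
  have h2 := h1.mul_left (wt k : ℂ)
  refine h2.congr fun j => ?_
  have h := co_Sh j y k
  unfold co at h
  change (wt k : ℂ) * (z ^ j / (j.factorial : ℂ) * ((Sh j y).1 0 : ℕ → ℂ) k) = _
  unfold co
  rw [mul_left_comm, h]

lemma norm_T0 (z : ℂ) (y : X) (m : ℕ) :
    ‖(T0 z y).1 m‖ ≤ (∑' j : ℕ, ‖z‖ ^ j * (cj j / (j.factorial : ℝ))) * ‖y.1 (2 * m + 1)‖ := by
  rw [T0_coord, ← tsum_mul_right]
  refine (norm_tsum_le_tsum_norm (summable_norm_term z y m)).trans ?_
  exact (summable_norm_term z y m).tsum_le_tsum (fun j => norm_term z y m j)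
    ((summable_cj (norm_nonneg z)).mul_right _)

/-- The operators of the group, as linear maps. -/
def Tl (z : ℂ) : X →ₗ[ℂ] X where
  toFun := T0 z
  map_add' := by
    intro a b
    apply X_ext
    intro k
    rw [co_add, co_T0, co_T0, co_T0, ← (summable_co z a k).tsum_add (summable_co z b k)]
    refine tsum_congr fun j => ?_
    rw [co_add]
    ring
  map_smul' := by
    intro c a
    apply X_ext
    intro k
    rw [RingHom.id_apply, co_smul, co_T0, co_T0, ← tsum_mul_left]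
    refine tsum_congr fun j => ?_
    rw [co_smul]
    ring

/-- The operators of the group. -/
def T (z : ℂ) : X →L[ℂ] X :=
  ⟨Tl z, continuous_of_bound (Tl z) (fun m => ⟨_, 2 * m + 1, fun y => norm_T0 z y m⟩)⟩

lemma T_apply (z : ℂ) (y : X) : T z y = T0 z y := rfl

lemma co_T (z : ℂ) (y : X) (k : ℕ) :
    co (T z y) k = ∑' j : ℕ, z ^ j / (j.factorial : ℂ) * co y (k + j) := co_T0 z y k

lemma T_zero (y : X) : T 0 y = y := by
  apply X_ext
  intro k
  rw [co_T, tsum_eq_single 0]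
  · simp
  · intro j hj
    simp [hj]

lemma T_ex (z l : ℂ) : T z (ex l) = Complex.exp (l * z) • ex l := by
  apply X_ext
  intro k
  rw [co_T, co_smul, co_ex]
  have h1 : ∀ j : ℕ, z ^ j / (j.factorial : ℂ) * co (ex l) (k + j) =
      l ^ k * ((l * z) ^ j / (j.factorial : ℂ)) := by
    intro j
    rw [co_ex, pow_add, mul_pow]
    ring
  rw [tsum_congr h1, tsum_mul_left, Complex.exp_eq_exp_ℂ, NormedSpace.exp_eq_tsum_div, mul_comm]

end

end Pool.Agent.R82.HG
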