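import Mathlib

/-!
A Frechet space of sequences (Taylor coefficients of entire functions of order 3/2) and its
elementary properties.
-/

namespace Pool.Agent.R82.HG

open Filter Topology

noncomputable section

/-- The Banach space of absolutely summable sequences. -/
abbrev L1 : Type := lp (fun _ : ℕ => ℂ) 1

lemma L1_norm (f : L1) : ‖f‖ = ∑' k, ‖f k‖ := by
  rw [lp.norm_eq_tsum_rpow (by simp)]
  simp

lemma L1_summable (f : L1) : Summable fun k => ‖f k‖ := by
  have h := lp.memℓp f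
  rw [memℓp_gen_iff (by simp)] at h
  simpa using h

lemma L1_mem {f : ℕ → ℂ} (h : Summable fun k => ‖f k‖) : Memℓp f 1 := by
  rw [memℓp_gen_iff (by simp)]
  simpa using h

/-- The weights. -/
def wt (k : ℕ) : ℝ := ((k / 3).factorial : ℝ)

lemma wt_pos (k : ℕ) : 0 < wt k := by
  unfold wt
  exact_mod_cast Nat.factorial_pos _

lemma one_le_wt (k : ℕ) : 1 ≤ wt k := by
  unfold wt
  exact_mod_cast Nat.factorial_pos _

lemma wt_ne (k : ℕ) : (wt k : ℂ) ≠ 0 := by
  exact_mod_cast (wt_pos k).ne'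

/-- The space. -/
def X : Submodule ℂ (ℕ → L1) where
  carrier := {y | ∀ m k : ℕ, (y m : ℕ → ℂ) k = ((m : ℂ) + 1) ^ k * (y 0 : ℕ → ℂ) k}
  add_mem' := by
    intro a b ha hb m k
    simp only [Pi.add_apply, lp.coeFn_add]
    rw [ha m k, hb m k]
    ring
  zero_mem' := by
    intro m k
    simp
  smul_mem' := by
    intro c a ha m k
    simp only [Pi.smul_apply, lp.coeFn_smul, smul_eq_mul]
    rw [ha m k]
    ring

lemma X_rel (y : X) (m k : ℕ) : (y.1 m : ℕ → ℂ) k = ((m : ℂ) + 1) ^ k * (y.1 0 : ℕ → ℂ) k :=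
  y.2 m k

lemma continuous_coord (m k : ℕ) : Continuous fun y : ℕ → L1 => (y m : ℕ → ℂ) k :=
  (lp.evalCLM ℂ (fun _ : ℕ => ℂ) 1 k).continuous.comp (continuous_apply m)

lemma isClosed_X : IsClosed (X : Set (ℕ → L1)) := by
  have h : (X : Set (ℕ → L1)) = ⋂ m : ℕ, ⋂ k : ℕ,
      {y | (y m : ℕ → ℂ) k = ((m : ℂ) + 1) ^ k * (y 0 : ℕ → ℂ) k} := by
    ext y
    simp only [Set.mem_iInter]
    rfl
  rw [h]
  refine isClosed_iInter fun m => isClosed_iInter fun k => ?_
  exact isClosed_eq (continuous_coord m k) (continuous_const.mul (continuous_coord 0 k))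

instance : CompleteSpace X := isClosed_X.completeSpace_coe

/-- The coordinates. -/
def co (y : X) (k : ℕ) : ℂ := (wt k : ℂ) * (y.1 0 : ℕ → ℂ) k

lemma coord_eq (y : X) (m k : ℕ) :
    (y.1 m : ℕ → ℂ) k = ((m : ℂ) + 1) ^ k * co y k / wt k := by
  rw [X_rel]
  unfold co
  have := wt_ne k
  field_simp

lemma norm_coord (y : X) (m k : ℕ) :
    ‖(y.1 m : ℕ → ℂ) k‖ = ((m : ℝ) + 1) ^ k * ‖co y k‖ / wt k := by
  rw [coord_eq, norm_div, norm_mul, norm_pow, Complex.norm_real, Real.norm_of_nonneg (wt_pos k).le]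
  have : ‖(m : ℂ) + 1‖ = (m : ℝ) + 1 := by
    have : (m : ℂ) + 1 = ((m + 1 : ℕ) : ℂ) := by push_cast; ring
    rw [this, Complex.norm_natCast]
    push_cast
    ring
  rw [this]

lemma X_ext {y y' : X} (h : ∀ k, co y k = co y' k) : y = y' := by
  apply Subtype.ext
  funext m
  apply lp.ext
  funext k
  rw [coord_eq, coord_eq, h]

@[simp] lemma co_add (y y' : X) (k : ℕ) : co (y + y') k = co y k + co y' k := by
  unfold co
  simp [mul_add]

@[simp] lemma co_smul (c : ℂ) (y : X) (k : ℕ) : co (c • y) k = c * co y k := by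
  unfold co
  simp only [SetLike.val_smul, Pi.smul_apply, lp.coeFn_smul, smul_eq_mul]
  ring

@[simp] lemma co_sub (y y' : X) (k : ℕ) : co (y - y') k = co y k - co y' k := by
  unfold co
  simp [mul_sub]

/-- Construction of elements. -/
def mk (b : ℕ → ℂ) (hb : ∀ m : ℕ, Summable fun k => ((m : ℝ) + 1) ^ k * ‖b k‖ / wt k) : X :=
  ⟨fun m => ⟨fun k => ((m : ℂ) + 1) ^ k * b k / wt k, by
    apply L1_mem
    refine (hb m).congr fun k => ?_
    rw [norm_div, norm_mul, norm_pow, Complex.norm_real, Real.norm_of_nonneg (wt_pos k).le]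
    have : ‖(m : ℂ) + 1‖ = (m : ℝ) + 1 := by
      have : (m : ℂ) + 1 = ((m + 1 : ℕ) : ℂ) := by push_cast; ring
      rw [this, Complex.norm_natCast]
      push_cast
      ring
    rw [this]⟩, by
    intro m k
    change ((m : ℂ) + 1) ^ k * b k / wt k =
      ((m : ℂ) + 1) ^ k * ((((0 : ℕ) : ℂ) + 1) ^ k * b k / wt k)
    simp
    ring⟩

@[simp] lemma co_mk (b : ℕ → ℂ) (hb) (k : ℕ) : co (mk b hb) k = b k := by
  change (wt k : ℂ) * ((((0 : ℕ) : ℂ) + 1) ^ k * b k / wt k) = b k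
  have := wt_ne k
  field_simp
  simp

lemma norm_co_le (y : X) (k : ℕ) : ‖co y k‖ ≤ wt k * ‖y.1 0‖ := by
  unfold co
  rw [norm_mul, Complex.norm_real, Real.norm_of_nonneg (wt_pos k).le]
  exact mul_le_mul_of_nonneg_left (lp.norm_apply_le_norm (by simp) _ _) (wt_pos k).le

/-! ### Topology -/

lemma tendsto_iff {ι : Type*} {l : Filter ι} (u : ι → X) (x : X) :
    Tendsto u l (𝓝 x) ↔ ∀ m : ℕ, Tendsto (fun i => ‖(u i - x).1 m‖) l (𝓝 0) := by
  rw [tendsto_subtype_rng, tendsto_pi_nhds]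
  refine forall_congr' fun m => ?_
  rw [tendsto_iff_norm_sub_tendsto_zero]
  rfl

lemma continuous_of_bound (A : X →ₗ[ℂ] X)
    (h : ∀ m : ℕ, ∃ (C : ℝ) (m' : ℕ), ∀ y : X, ‖(A y).1 m‖ ≤ C * ‖y.1 m'‖) : Continuous A := by
  apply continuous_of_continuousAt_zero A
  unfold ContinuousAt
  rw [map_zero, tendsto_iff]
  intro m
  obtain ⟨C, m', hC⟩ := h m
  have h1 : Tendsto (fun y : X => C * ‖y.1 m'‖) (𝓝 0) (𝓝 0) := by
    have h2 : Continuous fun y : X => C * ‖y.1 m'‖ :=
      continuous_const.mul ((continuous_apply m').comp continuous_subtype_val).norm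
    have h3 := h2.tendsto 0
    simpa using h3
  refine squeeze_zero (fun _ => norm_nonneg _) (fun y => ?_) h1
  rw [sub_zero]
  exact hC y

lemma norm_mono (y : X) {m m' : ℕ} (h : m ≤ m') : ‖y.1 m‖ ≤ ‖y.1 m'‖ := by
  rw [L1_norm, L1_norm]
  apply (L1_summable _).tsum_le_tsum _ (L1_summable _)
  intro k
  rw [norm_coord, norm_coord]
  have h1 : (m : ℝ) ≤ m' := by exact_mod_cast h
  have := wt_pos k
  gcongr

/-- A set is a neighbourhood as soon as it contains a ball for one of the seminorms. -/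
lemma exists_ball {x : X} {U : Set X} (hU : U ∈ 𝓝 x) :
    ∃ (m : ℕ) (ε : ℝ), 0 < ε ∧ ∀ y : X, ‖(y - x).1 m‖ < ε → y ∈ U := by
  by_contra hcon
  push Not at hcon
  have h1 : ∀ n : ℕ, ∃ y : X, ‖(y - x).1 n‖ < 1 / ((n : ℝ) + 1) ∧ y ∉ U := fun n =>
    hcon n _ Nat.one_div_pos_of_nat
  choose y hy hyU using h1
  have h2 : Tendsto y atTop (𝓝 x) := by
    rw [tendsto_iff]
    intro m
    refine squeeze_zero' (Eventually.of_forall fun _ => norm_nonneg _) ?_
      tendsto_one_div_add_atTop_nhds_zero_nat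
    filter_upwards [eventually_ge_atTop m] with n hn
    exact (norm_mono _ hn).trans (hy n).le
  obtain ⟨n, hn⟩ := (h2.eventually hU).exists
  exact hyU n hn

end

end Pool.Agent.R82.HG
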